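import Pool.Agent.W622.ETC.Stm

set_option autoImplicit false
set_option linter.unusedVariables false

/-!
# Project ELT, part NG
-/

namespace Pool.Agent.W948.ELT

open Pool.Agent.W622.ETC Module

section
variable {V : Type} [AddCommGroup V] [Module (ZMod 2) V] [Finite V]

theorem exists_maxCone {A : Fam V} {X : DSub V} (h : IsCone A X) :
    ∃ M : DSub V, X ≤ M ∧ MaxCone A M := by
  obtain ⟨M, h1, h2⟩ := (Set.toFinite {Y : DSub V | IsCone A Y}).exists_le_maximal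
    (show X ∈ {Y : DSub V | IsCone A Y} from h)
  exact ⟨M, h1, h2.prop, fun Y hY hle => le_antisymm (h2.le_of_ge hY hle) hle⟩

theorem z_key : ∀ x y z g g' : ZMod 2, x + z + g = y + z + g' → x + y = g + g' := by decide

theorem z_cancel : ∀ x g g' : ZMod 2, x + g = x + g' → g = g' := by decide

omit [Finite V] in
theorem frm_key {x y z g g' : Frm V} (h : x + z + g = y + z + g') : x + y = g + g' := by
  ext a b
  exact z_key _ _ _ _ _ (congrArg (fun t : Frm V => t a b) h)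

omit [Finite V] in
theorem frm_cancel {x g g' : Frm V} (h : x + g = x + g') : g = g' := by
  ext a b
  exact z_cancel _ _ _ (congrArg (fun t : Frm V => t a b) h)

/-- the good part -/
def Ag (A : Fam V) : Fam V := ⨆ X ∈ GB A, res A X

omit [Finite V] in
theorem res_le_Ag {A : Fam V} {X : DSub V} (h : X ∈ GB A) : res A X ≤ Ag A :=
  le_iSup₂_of_le X h le_rfl

omit [Finite V] in
theorem Ag_le (A : Fam V) : Ag A ≤ res A (PP A) :=
  iSup₂_le fun _ hX => res_mono A (le_sSup hX)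

theorem res_le_of_cone (hA4 : S_A4) {A : Fam V} (mc : MC A) {X : DSub V} (h : IsCone A X) :
    res A X ≤ Ag A := by
  obtain ⟨M, h1, h2⟩ := exists_maxCone h
  exact (res_mono A h1).trans (res_le_Ag ⟨Or.inl h2, hA4 V A M mc h2⟩)

/-- the members killing `c` modulo the good part -/
theorem res_ann_le (hA4 : S_A4) (hOM : S_OM) {A : Fam V} (mc : MC A) {c : V}
    {s : Set (DSub V)} (hs : Comps (res A (ann c)) s) :
    res A (ann c) ≤ Ag A ⊔ Submodule.span (ZMod 2) (om A '' BBL A c) := by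
  conv_lhs => rw [hs.2.1]
  refine iSup₂_le fun X hX => ?_
  have hle : res (res A (ann c)) X ≤ res A X := res_mono_left (res_le A _) X
  rcases hs.2.2 X hX with ⟨ω, hω, rfl⟩ | ⟨p, h1, h2, h3, h4⟩
  · by_cases hc : ∃ Z, IsCone A Z ∧ sp ω ≤ Z
    · obtain ⟨Z, hZ, hle2⟩ := hc
      exact (hle.trans (res_mono A hle2)).trans ((res_le_of_cone hA4 mc hZ).trans le_sup_left)
    · have hprim : Prim A ω := by
        refine ⟨hω.1.1, hω.2.1, fun η hη hsp => hω.2.2 η ?_ hsp⟩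
        exact mem_res'.2 ⟨hη, hsp.trans (mem_res'.1 hω.1).2⟩
      have hloc : LocBlock A (sp ω) := ⟨ω, hprim, rfl, fun Z hZ hle2 => hc ⟨Z, hZ, hle2⟩⟩
      by_cases hg : Good A (sp ω)
      · exact hle.trans ((res_le_Ag ⟨Or.inr hloc, hg⟩).trans le_sup_left)
      · intro η hη
        have hη' := hle hη
        have hmem : sp ω ∈ BBL A c := ⟨⟨Or.inr hloc, hg⟩, (mem_res'.1 hω.1).2⟩
        rcases (hOM V A (sp ω) mc.alt hloc).2.2.2.1 η hη' with rfl | rfl
        · exact Submodule.zero_mem _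
        · exact Submodule.mem_sup_right (Submodule.subset_span ⟨_, hmem, rfl⟩)
  · exact hle.trans ((res_le_of_cone hA4 mc ⟨p, h1, h2, h3, fun g hg => (h4 g hg).1⟩).trans
      le_sup_left)

/-- the claim: members with value `f` at `c` have no kernel vector killed by `B` -/
theorem ker_eq (hNF : S_NF) (hSPLIT : S_SPLIT) (hBLK : S_BLK) {A : Fam V} (mc : MC A)
    {B : DSub V} (hB : Block A B) {c : V} {f : Dl V} (hf : f ∈ B)
    (hn : ∀ η ∈ res A B, η c ≠ f) {ζ : Frm V} (hζ : ζ ∈ A) (hζc : ζ c = f) {b : V}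
    (hb : ζ b = 0) (hBb : ∀ g ∈ B, g b = 0) : b = 0 := by
  by_contra hb0
  have hle : B ≤ ann b := fun g hg => hBb g hg
  obtain ⟨-, s, hs⟩ := hNF V _ (mc.el (ann b) (ann_ne_top hb0))
  have hBs : B ∈ s := hBLK V A B (ann b) s mc.alt hB hle hs
  obtain ⟨h1, h2, -⟩ := hSPLIT V _ s {B} (mc.alt.res _) hs (Set.singleton_subset_iff.2 hBs)
  rw [sSup_singleton] at h1 h2
  have hζ' : ζ ∈ res A (ann b) := (mem_res_ann mc.alt).2 ⟨hζ, hb⟩
  rw [h1] at hζ'
  obtain ⟨ζ₁, hζ₁, ζ₂, hζ₂, rfl⟩ := Submodule.mem_sup.1 hζ'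
  have h3 : ζ₁ c ∈ B := hζ₁.2 c
  have h4 : ζ₂ c ∈ B := by
    have h5 : ζ₂ c = (ζ₁ + ζ₂) c + ζ₁ c := by
      rw [LinearMap.add_apply, add_comm (ζ₁ c), add_cancel']
    rw [h5, hζc]
    exact B.add_mem hf h3
  have h5 : ζ₂ c = 0 := by
    have h6 : ζ₂ c ∈ B ⊓ sSup (s \ {B}) := ⟨h4, hζ₂.2 c⟩
    rwa [h2.eq_bot, Submodule.mem_bot] at h6
  have h6 : ζ₁ c = f := by
    rw [← hζc, LinearMap.add_apply, h5, add_zero]
  exact hn ζ₁ ⟨hζ₁.1.1, hζ₁.2⟩ h6

end

theorem t_NG (hFIND : S_FIND) (hFDEC : S_FDEC) (hNF : S_NF) (hSPLIT : S_SPLIT) (hBLK : S_BLK)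
    (hBNT : S_BNT) (hA4 : S_A4) (hGLUE : S_GLUE) (hOM : S_OM) : S_NG := by
  intro V _ _ _ A B hFW hBB
  classical
  have mc := hFW.mc
  have hB := hBB.1
  have hloc : LocBlock A B := by
    rcases hB with h | h
    · exact absurd (hA4 V A B mc h) hBB.2
    · exact h
  obtain ⟨hom1, hom2, hom3, -, -, -⟩ := hOM V A B mc.alt hloc
  have hng := hBB.2
  unfold Good at hng
  push Not at hng
  obtain ⟨c, ζ₀, hζ₀, hfB, hn⟩ := hng
  set f : Dl V := ζ₀ c with hf
  have hf0 : f ≠ 0 := fun h0 => hn 0 (Submodule.zero_mem _) (by rw [h0]; rfl)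
  have hc0 : c ≠ 0 := by
    rintro rfl
    exact hf0 (map_zero _)
  refine ⟨c, hc0, ?_⟩
  -- `B` is disjoint from the sum of the good blocks
  have hdisj : Disjoint B (PP A) := by
    have h1 := hFIND V A {B} hFW (Set.singleton_subset_iff.2 hBB)
      (by rw [sSup_singleton]; exact (hBNT V A B mc hB).1)
    have h2 := h1 (show B ∈ GB A ∪ {B} from Or.inr rfl)
    have h3 : GB A ⊆ (GB A ∪ {B}) \ {B} := fun X hX =>
      ⟨Or.inl hX, fun he => hBB.2 (by rw [Set.mem_singleton_iff] at he; exact he ▸ hX.2)⟩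
    exact h2.mono_right (sSup_le_sSup h3)
  have hker : ∀ {v : V}, om A B v = 0 ↔ ∀ g ∈ B, g v = 0 := by
    intro v
    rw [(mc.alt _ hom1).ker_iff, hom3]
  -- the point `a₀`
  obtain ⟨a₁, ha₁⟩ : ∃ a, om A B a = f := by
    have : f ∈ sp (om A B) := by rw [hom3]; exact hfB
    exact this
  obtain ⟨a₀, h01, h02⟩ := exists_glue hdisj a₁ 0
  have ha₀ : om A B a₀ = f := by
    have h1 : om A B (a₀ + a₁) = 0 := hker.2 fun g hg => by rw [map_add, h01 g hg, zadd]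
    rw [map_add] at h1
    rw [← ha₁]
    exact add_eq_zero'.1 h1
  have ha₀P : ∀ g ∈ PP A, g a₀ = 0 := fun g hg => by rw [h02 g hg, map_zero]
  -- linkage
  have hlink : ∀ a : V, om A B a = f → ∃ ζ ∈ A, ζ a = f ∧ ζ c = f := by
    intro a ha
    obtain ⟨ζ, h1, h2, h3⟩ := mc.her.linked (om A B) hom1 ζ₀ hζ₀ a c (ha.trans hf)
    exact ⟨ζ, h1, h2.trans ha, h3.trans ha⟩
  choose! Z hZ1 hZ2 hZ3 using hlink
  set W : Submodule (ZMod 2) V := (B ⊔ PP A).dualCoannihilator with hW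
  have hWB : ∀ v ∈ W, ∀ g ∈ B, g v = 0 := fun v hv g hg =>
    (Submodule.mem_dualCoannihilator v).1 hv g (Submodule.mem_sup_left hg)
  have hWP : ∀ v ∈ W, ∀ g ∈ PP A, g v = 0 := fun v hv g hg =>
    (Submodule.mem_dualCoannihilator v).1 hv g (Submodule.mem_sup_right hg)
  have hC : ∀ v ∈ W, om A B (a₀ + v) = f := fun v hv => by
    rw [map_add, hker.2 (hWB v hv), add_zero, ha₀]
  -- counting
  set S : Fam V := Submodule.span (ZMod 2) (om A '' BBL A c) with hS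
  obtain ⟨-, s, hs⟩ := hNF V _ (mc.el (ann c) (ann_ne_top hc0))
  have hmem : ∀ ρ ∈ res A (ann c), ρ ∈ Ag A ⊔ S := fun ρ hρ => res_ann_le hA4 hOM mc hs hρ
  have hm : ∀ v ∈ W, Z (a₀ + v) + Z a₀ ∈ res A (ann c) := by
    intro v hv
    refine (mem_res_ann mc.alt).2 ⟨A.add_mem (hZ1 _ (hC v hv)) (hZ1 _ ha₀), ?_⟩
    rw [LinearMap.add_apply, hZ3 _ (hC v hv), hZ3 _ ha₀]
    exact vadd f
  let φ : W × Ag A → ↥(Ag A ⊔ S) := fun v => ⟨(Z (a₀ + v.1.1) + Z a₀) + v.2.1,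
    Submodule.add_mem _ (hmem _ (hm v.1.1 v.1.2)) (Submodule.mem_sup_left v.2.2)⟩
  have hφ : Function.Injective φ := by
    rintro ⟨v, γ⟩ ⟨v', γ'⟩ hvv
    have h1 : (Z (a₀ + v.1) + Z a₀) + γ.1 = (Z (a₀ + v'.1) + Z a₀) + γ'.1 :=
      congrArg Subtype.val hvv
    have h2 : Z (a₀ + v.1) + Z (a₀ + v'.1) = γ.1 + γ'.1 := frm_key h1
    have h3 : Z (a₀ + v.1) + Z (a₀ + v'.1) ∈ Ag A := by
      rw [h2]
      exact (Ag A).add_mem γ.2 γ'.2
    have h4 := Ag_le A h3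
    have h5 : (Z (a₀ + v.1) + Z (a₀ + v'.1)) (a₀ + v'.1) = 0 := by
      rw [(mc.alt _ h4.1).ker_iff]
      intro g hg
      have hgP : g ∈ PP A := (mem_res'.1 h4).2 hg
      rw [map_add, ha₀P g hgP, hWP _ v'.2 g hgP, add_zero]
    have h6 : Z (a₀ + v.1) (a₀ + v'.1) = f := by
      rw [LinearMap.add_apply, hZ2 _ (hC _ v'.2)] at h5
      exact add_eq_zero'.1 h5
    have h7 : Z (a₀ + v.1) (v.1 + v'.1) = 0 := by
      have e : v.1 + v'.1 = (a₀ + v.1) + (a₀ + v'.1) := by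
        have : (a₀ + v.1) + (a₀ + v'.1) = (a₀ + a₀) + (v.1 + v'.1) := by abel
        rw [this, vadd, zero_add]
      rw [e, map_add, hZ2 _ (hC _ v.2), h6]
      exact vadd f
    have h8 := ker_eq hNF hSPLIT hBLK mc hB hfB hn (hZ1 _ (hC _ v.2)) (hZ3 _ (hC _ v.2)) h7
      (fun g hg => by rw [map_add, hWB _ v.2 g hg, hWB _ v'.2 g hg, add_zero])
    have h9 : v = v' := Subtype.ext (add_eq_zero'.1 h8)
    subst h9
    exact Prod.ext rfl (Subtype.ext (frm_cancel h1))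
  have hcard := Nat.card_le_card_of_injective φ hφ
  have hcard2 : Nat.card ↥(Ag A ⊔ S) ≤ Nat.card (↥(Ag A) × (↥(BBL A c) → ZMod 2)) := by
    have : Fintype ↥(BBL A c) := Fintype.ofFinite _
    let L : (↥(BBL A c) → ZMod 2) →ₗ[ZMod 2] Frm V :=
      Fintype.linearCombination (ZMod 2) (fun F : ↥(BBL A c) => om A F.1)
    have hL : LinearMap.range L = S := by
      rw [Fintype.range_linearCombination, hS]
      congr 1
      ext x
      simp
    have hLm : ∀ x, L x ∈ S := fun x => hL ▸ ⟨x, rfl⟩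
    refine Nat.card_le_card_of_surjective
      (fun x : ↥(Ag A) × (↥(BBL A c) → ZMod 2) => (⟨x.1.1 + L x.2,
        Submodule.add_mem_sup x.1.2 (hLm x.2)⟩ : ↥(Ag A ⊔ S))) ?_
    rintro ⟨x, hx⟩
    obtain ⟨g, hg, y, hy, rfl⟩ := Submodule.mem_sup.1 hx
    rw [← hL] at hy
    obtain ⟨z, rfl⟩ := hy
    exact ⟨(⟨g, hg⟩, z), rfl⟩
  have hpos : 0 < Nat.card ↥(Ag A) := Nat.card_pos
  have hcard3 := hcard.trans hcard2
  rw [Nat.card_prod, Nat.card_prod, Nat.card_fun, Nat.card_zmod, mul_comm] at hcard3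
  have hcard4 := Nat.le_of_mul_le_mul_left hcard3 hpos
  rw [Module.natCard_eq_pow_finrank (K := ZMod 2) (V := W), Nat.card_zmod] at hcard4
  have h1 : finrank (ZMod 2) W ≤ Nat.card ↥(BBL A c) :=
    (Nat.pow_le_pow_iff_right (by norm_num)).1 hcard4
  have h2 : Nat.card ↥(BBL A c) = (BBL A c).ncard := rfl
  have h3 : finrank (ZMod 2) (B ⊔ PP A : DSub V) + finrank (ZMod 2) W = finrank (ZMod 2) V :=
    Subspace.finrank_add_finrank_dualCoannihilator_eq _
  have h4 := Submodule.finrank_add_le_finrank_add_finrank B (PP A)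
  omega

end Pool.Agent.W948.ELT
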